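import Mathlib

/-!
# Completeness properties of Wijsman hyperspaces

For a metric space `(X,d)` let `2^X` be the set of nonempty closed subsets with the Wijsman
topology.  We answer the three questions of Cao and Junnila:

* (a) if `X` is pseudocomplete, then so is `2^X` (for every metric `d`);
* (b) if `X` is subcompact, then so is `2^X` (for every metric `d`);
* (c) there is a metric space `X` which is base-compact while `2^X` is not base-compact.

Idea for (a) and (b): basic open sets are `Bs T M`, the closed sets meeting every member of the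
finite family `T` of small members of the given (`π`-)base and having distance `> s` from `y` for
all `(y,s)` in the finite set `M`, where the members of `T` stay away from the balls of `M`.  If
`closure (Bs T' M') ⊆ Bs T M` then every member of `T` contains the closure of a member of `T'`
(`fact1`), and the points allowed by `M'` have distance from `y` bounded away from `s` for every
`(y,s)` in `M` (`fact3`).  The set of all points allowed by all members of the family is then a
common element (`limit_mem`).

Idea for (c): `Pt` consists of isolated points `t s`, `x n` and of continuum many pieces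
`u α`, each a copy of the space with one non-isolated point at which it is not locally compact.
-/

namespace Pool.Agent.Results.MP_091b66_gt.WijsmanCompleteness

open Set Metric TopologicalSpace Topology

universe u

/-! ## Definitions -/

/-- `Y` is quasi-regular: every nonempty open set contains the closure of some nonempty open
set. -/
def QuasiRegular (Y : Type u) [TopologicalSpace Y] : Prop :=
  ∀ O : Set Y, IsOpen O → O.Nonempty → ∃ U : Set Y, IsOpen U ∧ U.Nonempty ∧ closure U ⊆ O

/-- `P` is a (an open) `π`-base of `Y`: a family of nonempty open sets such that every nonempty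
open set contains a member of `P`. -/
def IsPiBase {Y : Type u} [TopologicalSpace Y] (P : Set (Set Y)) : Prop :=
  (∀ U ∈ P, IsOpen U ∧ U.Nonempty) ∧
    ∀ O : Set Y, IsOpen O → O.Nonempty → ∃ U ∈ P, U ⊆ O

/-- `Y` is pseudocomplete: it is quasi-regular and there are `π`-bases `P 0, P 1, …` such that
`⋂ n, V n ≠ ∅` whenever `V n ∈ P n` and `closure (V (n+1)) ⊆ V n` for all `n`. -/
def Pseudocomplete (Y : Type u) [TopologicalSpace Y] : Prop :=
  QuasiRegular Y ∧
    ∃ P : ℕ → Set (Set Y), (∀ n, IsPiBase (P n)) ∧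
      ∀ V : ℕ → Set Y, (∀ n, V n ∈ P n) → (∀ n, closure (V (n + 1)) ⊆ V n) →
        (⋂ n, V n).Nonempty

/-- `F` is a filter base: a nonempty family of nonempty sets, downward directed under
inclusion. -/
def IsFilterBase {Y : Type u} (F : Set (Set Y)) : Prop :=
  F.Nonempty ∧ (∀ A ∈ F, A.Nonempty) ∧ ∀ A ∈ F, ∀ B ∈ F, ∃ C ∈ F, C ⊆ A ∩ B

/-- The family `F` is regular: each member of `F` contains the closure of some member of `F`. -/
def IsRegularFamily {Y : Type u} [TopologicalSpace Y] (F : Set (Set Y)) : Prop :=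
  ∀ A ∈ F, ∃ G ∈ F, closure G ⊆ A

/-- `Y` is subcompact: it is regular and has an open base `B` such that every filter base
`F ⊆ B` which is regular has nonempty intersection. -/
def Subcompact (Y : Type u) [TopologicalSpace Y] : Prop :=
  RegularSpace Y ∧
    ∃ B : Set (Set Y), IsTopologicalBasis B ∧
      ∀ F ⊆ B, IsFilterBase F → IsRegularFamily F → (⋂₀ F).Nonempty

/-- `C` is a centered family: every finite subfamily has nonempty intersection. -/
def IsCentered {Y : Type u} (C : Set (Set Y)) : Prop :=
  ∀ D ⊆ C, D.Finite → (⋂₀ D).Nonempty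

/-- `Y` is base-compact: it is regular and has an open base `B` such that the closures of the
members of any centered family `C ⊆ B` have a common point. -/
def BaseCompact (Y : Type u) [TopologicalSpace Y] : Prop :=
  RegularSpace Y ∧
    ∃ B : Set (Set Y), IsTopologicalBasis B ∧
      ∀ C ⊆ B, IsCentered C → (⋂ c ∈ C, closure c).Nonempty

/-- `2^X`, the set of nonempty closed subsets of the metric space `X`. -/
def Hyp (X : Type u) [MetricSpace X] : Type u := {A : Set X // IsClosed A ∧ A.Nonempty}

/-- The Wijsman topology: the weakest topology on `2^X` for which every map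
`A ↦ d(x,A) = inf_{a ∈ A} d(x,a)`, `x ∈ X`, is continuous. -/
noncomputable instance wijsman (X : Type u) [MetricSpace X] : TopologicalSpace (Hyp X) :=
  ⨅ x : X, TopologicalSpace.induced (fun A : Hyp X => infDist x A.1) inferInstance

/-! ## Basic facts about the Wijsman topology -/

section Basic

variable {X : Type u} [MetricSpace X]

/-- distance functional -/
noncomputable def df (A : Hyp X) : X → ℝ := fun x => infDist x A.1

lemma wijsman_eq : wijsman X = TopologicalSpace.induced (df (X := X)) Pi.topologicalSpace := by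
  unfold wijsman Pi.topologicalSpace
  rw [induced_iInf]
  congr 1
  funext x
  rw [induced_compose]
  rfl

lemma isInducing_df : IsInducing (df (X := X)) := ⟨wijsman_eq⟩

lemma df_injective : Function.Injective (df (X := X)) := by
  intro A B h
  apply Subtype.ext
  ext x
  have h1 := congrFun h x
  unfold df at h1
  rw [A.2.1.mem_iff_infDist_zero A.2.2, B.2.1.mem_iff_infDist_zero B.2.2, h1]

lemma isEmbedding_df : IsEmbedding (df (X := X)) := ⟨isInducing_df, df_injective⟩

instance instT3 : T3Space (Hyp X) := isEmbedding_df.t3Space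

lemma continuous_infDist_hyp (x : X) : Continuous fun A : Hyp X => infDist x A.1 :=
  (continuous_apply x).comp isInducing_df.continuous

/-- neighbourhoods -/
lemma exists_fin_of_open {O : Set (Hyp X)} (hO : IsOpen O) {A : Hyp X} (hA : A ∈ O) :
    ∃ F : Finset X, ∃ ε : ℝ, 0 < ε ∧ ∀ B : Hyp X,
      (∀ z ∈ F, |infDist z B.1 - infDist z A.1| < ε) → B ∈ O := by
  obtain ⟨W, hW, rfl⟩ := isInducing_df.isOpen_iff.1 hO
  rw [isOpen_pi_iff] at hW
  obtain ⟨F, u, hu, hsub⟩ := hW (df A) hA
  have : ∀ z : X, ∃ ε : ℝ, 0 < ε ∧ (z ∈ F → ball (df A z) ε ⊆ u z) := by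
    intro z
    by_cases hz : z ∈ F
    · obtain ⟨ε, he, hb⟩ := Metric.isOpen_iff.1 (hu z hz).1 _ (hu z hz).2
      exact ⟨ε, he, fun _ => hb⟩
    · exact ⟨1, one_pos, fun h => absurd h hz⟩
  choose ε hε hb using this
  by_cases hF : F.Nonempty
  · refine ⟨F, F.inf' hF ε, ?_, ?_⟩
    · rw [Finset.lt_inf'_iff]
      exact fun z _ => hε z
    · intro B hB
      apply hsub
      intro z hz
      apply hb z hz
      rw [mem_ball, Real.dist_eq]
      exact (hB z hz).trans_le (Finset.inf'_le _ hz)
  · refine ⟨F, 1, one_pos, ?_⟩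
    intro B hB
    apply hsub
    intro z hz
    exact absurd ⟨z, hz⟩ hF

lemma isOpen_of_fin {A : Hyp X} (F : Finset X) {ε : ℝ} :
    IsOpen {B : Hyp X | ∀ z ∈ F, |infDist z B.1 - infDist z A.1| < ε} := by
  have : {B : Hyp X | ∀ z ∈ F, |infDist z B.1 - infDist z A.1| < ε}
      = ⋂ z ∈ F, {B : Hyp X | |infDist z B.1 - infDist z A.1| < ε} := by
    ext B; simp
  rw [this]
  apply isOpen_biInter_finset
  intro z _
  exact isOpen_lt (((continuous_infDist_hyp z).sub continuous_const).abs) continuous_const

end Basic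

section Core

variable {X : Type u} [MetricSpace X]

/-- A closed nonempty set as a point of `2^X`. -/
def ofClosed (S : Set X) (hS : IsClosed S) (hne : S.Nonempty) : Hyp X := ⟨S, hS, hne⟩

/-- A finite nonempty set as a point of `2^X`. -/
def ofFin (S : Set X) (hS : S.Finite) (hne : S.Nonempty) : Hyp X := ⟨S, hS.isClosed, hne⟩

lemma ofFin_val (S : Set X) (hS : S.Finite) (hne : S.Nonempty) : (ofFin S hS hne).1 = S := rfl

lemma ofClosed_val (S : Set X) (hS : IsClosed S) (hne : S.Nonempty) :
    (ofClosed S hS hne).1 = S := rfl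

/-- the sets hitting all members of `T` and of distance `> s` from `y` for all
`(y,s) ∈ M`. -/
def Bs (T : Set (Set X)) (M : Set (X × ℝ)) : Set (Hyp X) :=
  {A | (∀ U ∈ T, (A.1 ∩ U).Nonempty) ∧ ∀ p ∈ M, p.2 < infDist p.1 A.1}

/-- The set of points allowed by `M`. -/
def G (M : Set (X × ℝ)) : Set X := {x | ∀ p ∈ M, p.2 < dist p.1 x}

structure Adm (T : Set (Set X)) (M : Set (X × ℝ)) : Prop where
  finT : T.Finite
  finM : M.Finite
  ne : T.Nonempty
  op : ∀ U ∈ T, IsOpen U
  nonempty : ∀ U ∈ T, U.Nonempty
  gap : ∀ U ∈ T, ∀ p ∈ M, ∀ x ∈ closure U, p.2 < dist p.1 x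

lemma isOpen_hit {U : Set X} (hU : IsOpen U) : IsOpen {A : Hyp X | (A.1 ∩ U).Nonempty} := by
  rw [isOpen_iff_mem_nhds]
  rintro A ⟨a, haA, haU⟩
  obtain ⟨ε, he, hb⟩ := Metric.isOpen_iff.1 hU a haU
  have h1 : IsOpen {B : Hyp X | infDist a B.1 < ε} :=
    isOpen_lt (continuous_infDist_hyp a) continuous_const
  apply Filter.mem_of_superset (h1.mem_nhds _)
  · intro B hB
    obtain ⟨b, hb1, hb2⟩ := (infDist_lt_iff B.2.2).1 hB
    exact ⟨b, hb1, hb (by rw [mem_ball, dist_comm]; exact hb2)⟩
  · show infDist a A.1 < ε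
    rw [infDist_zero_of_mem haA]
    exact he

lemma isOpen_Bs {T : Set (Set X)} {M : Set (X × ℝ)} (hT : T.Finite) (hM : M.Finite)
    (ho : ∀ U ∈ T, IsOpen U) : IsOpen (Bs T M) := by
  have : Bs T M = (⋂ U ∈ T, {A : Hyp X | (A.1 ∩ U).Nonempty}) ∩
      ⋂ p ∈ M, {A : Hyp X | p.2 < infDist p.1 A.1} := by
    ext A
    simp [Bs]
  rw [this]
  refine (hT.isOpen_biInter fun U hU => isOpen_hit (ho U hU)).inter
    (hM.isOpen_biInter fun p _ => ?_)
  exact isOpen_lt continuous_const (continuous_infDist_hyp p.1)

lemma lt_infDist_ofFin {S : Set X} (hS : S.Finite) (hne : S.Nonempty) {y : X} {s : ℝ}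
    (h : ∀ x ∈ S, s < dist y x) : s < infDist y S := by
  obtain ⟨x, hx, hd⟩ := hS.isCompact.exists_infDist_eq_dist hne y
  rw [hd]
  exact h x hx

lemma ofFin_mem_Bs {T : Set (Set X)} {M : Set (X × ℝ)} {S : Set X} (hS : S.Finite)
    (hne : S.Nonempty) (h1 : ∀ U ∈ T, (S ∩ U).Nonempty) (h2 : S ⊆ G M) :
    ofFin S hS hne ∈ Bs T M :=
  ⟨h1, fun p hp => lt_infDist_ofFin hS hne fun _ hx => h2 hx p hp⟩

lemma sub_G_of_mem {T : Set (Set X)} {M : Set (X × ℝ)} {A : Hyp X} (hA : A ∈ Bs T M) :
    A.1 ⊆ G M := fun _ hx p hp => (hA.2 p hp).trans_le (infDist_le_dist_of_mem hx)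

/-- choice of points gives a member -/
lemma choice_mem {T : Set (Set X)} {M : Set (X × ℝ)} (h : Adm T M) (f : Set X → X)
    (hf : ∀ U ∈ T, f U ∈ U) :
    ofFin (f '' T) (h.finT.image f) (h.ne.image f) ∈ Bs T M := by
  apply ofFin_mem_Bs
  · intro U hU
    exact ⟨f U, mem_image_of_mem f hU, hf U hU⟩
  · rintro _ ⟨U, hU, rfl⟩ p hp
    exact h.gap U hU p hp _ (subset_closure (hf U hU))

/-- choice of points in closures gives a member of the closure -/
lemma choice_mem_closure {T : Set (Set X)} {M : Set (X × ℝ)} (h : Adm T M) (f : Set X → X)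
    (hf : ∀ U ∈ T, f U ∈ closure U) :
    ofFin (f '' T) (h.finT.image f) (h.ne.image f) ∈ closure (Bs T M) := by
  refine _root_.mem_closure_iff.2 ?_
  intro O hO hmem
  obtain ⟨F, ε, he, hF⟩ := exists_fin_of_open hO hmem
  have : ∀ U : Set X, ∃ x : X, U ∈ T → x ∈ U ∧ dist (f U) x < ε := by
    intro U
    by_cases hU : U ∈ T
    · obtain ⟨x, hx, hd⟩ := Metric.mem_closure_iff.1 (hf U hU) ε he
      exact ⟨x, fun _ => ⟨hx, hd⟩⟩
    · obtain ⟨V, hV⟩ := h.ne
      obtain ⟨x, -⟩ := h.nonempty V hV
      exact ⟨x, fun h => absurd h hU⟩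
  choose g hg using this
  refine ⟨ofFin (g '' T) (h.finT.image g) (h.ne.image g), hF _ ?_, choice_mem h g
    fun U hU => (hg U hU).1⟩
  intro z _
  show |infDist z (g '' T) - infDist z (f '' T)| < ε
  rw [abs_sub_lt_iff]
  constructor
  · obtain ⟨x, ⟨U, hU, rfl⟩, hd⟩ :=
      (h.finT.image f).isCompact.exists_infDist_eq_dist (h.ne.image f) z
    have h1 := infDist_le_dist_of_mem (x := z) (mem_image_of_mem g hU)
    have h2 := dist_triangle z (f U) (g U)
    have h3 := (hg U hU).2
    linarith
  · obtain ⟨x, ⟨U, hU, rfl⟩, hd⟩ :=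
      (h.finT.image g).isCompact.exists_infDist_eq_dist (h.ne.image g) z
    have h1 := infDist_le_dist_of_mem (x := z) (mem_image_of_mem f hU)
    have h2 := dist_triangle z (g U) (f U)
    have h3 := (hg U hU).2
    rw [dist_comm] at h3
    linarith

/-- Fact 1 -/
lemma fact1 {T T' : Set (Set X)} {M M' : Set (X × ℝ)} (h' : Adm T' M')
    (hcl : closure (Bs T' M') ⊆ Bs T M) :
    ∀ U ∈ T, ∃ U' ∈ T', closure U' ⊆ U := by
  intro U hU
  by_contra hcon
  push Not at hcon
  have : ∀ U' : Set X, ∃ x : X, U' ∈ T' → x ∈ closure U' ∧ x ∉ U := by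
    intro U'
    by_cases hU' : U' ∈ T'
    · obtain ⟨x, hx, hd⟩ := not_subset.1 (hcon U' hU')
      exact ⟨x, fun _ => ⟨hx, hd⟩⟩
    · obtain ⟨V, hV⟩ := h'.ne
      obtain ⟨x, -⟩ := h'.nonempty V hV
      exact ⟨x, fun h => absurd h hU'⟩
  choose f hf using this
  have h1 := hcl (choice_mem_closure h' f fun U hU => (hf U hU).1)
  obtain ⟨x, ⟨U', hU', rfl⟩, hx⟩ := h1.1 U hU
  exact (hf U' hU').2 hx

/-- Fact 2 -/
lemma fact2 {T T' : Set (Set X)} {M M' : Set (X × ℝ)} (h' : Adm T' M')
    (hcl : Bs T' M' ⊆ Bs T M) : ∀ U' ∈ T', U' ⊆ G M := by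
  classical
  intro U' hU' x hx
  have : ∀ U : Set X, ∃ y : X, (U ∈ T' → y ∈ U) ∧ (U = U' → y = x) := by
    intro U
    by_cases hU : U = U'
    · subst hU
      exact ⟨x, fun _ => hx, fun _ => rfl⟩
    · by_cases hUT : U ∈ T'
      · obtain ⟨y, hy⟩ := h'.nonempty U hUT
        exact ⟨y, fun _ => hy, fun h => absurd h hU⟩
      · exact ⟨x, fun h => absurd h hUT, fun _ => rfl⟩
  choose f hf using this
  have h1 := hcl (choice_mem h' f fun U hU => (hf U).1 hU)
  exact sub_G_of_mem h1 ⟨U', hU', (hf U').2 rfl⟩

/-- the closure of the allowed set is in the closure of `Bs T M` -/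
lemma closure_G_mem {T : Set (Set X)} {M : Set (X × ℝ)} (h : Adm T M) (hne : (G M).Nonempty) :
    ofClosed (closure (G M)) isClosed_closure hne.closure ∈ closure (Bs T M) := by
  classical
  refine _root_.mem_closure_iff.2 ?_
  intro O hO hmem
  obtain ⟨F, ε, he, hF⟩ := exists_fin_of_open hO hmem
  choose f hf using h.nonempty
  have hz : ∀ z : X, ∃ y : X, y ∈ G M ∧ dist z y < infDist z (G M) + ε := by
    intro z
    have : infDist z (G M) < infDist z (G M) + ε := by linarith
    obtain ⟨y, hy, hd⟩ := (infDist_lt_iff hne).1 this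
    exact ⟨y, hy, hd⟩
  choose g hg hgd using hz
  have hw : ∀ U : Set X, ∃ y : X, U ∈ T → y ∈ U := by
    intro U
    by_cases hU : U ∈ T
    · exact ⟨f U hU, fun _ => hf U hU⟩
    · exact ⟨hne.some, fun h => absurd h hU⟩
  choose w hw using hw
  have hfin : (w '' T ∪ g '' (F : Set X)).Finite :=
    (h.finT.image w).union (F.finite_toSet.image g)
  have hnes : (w '' T ∪ g '' (F : Set X)).Nonempty := (h.ne.image w).inl
  have hsub : (w '' T ∪ g '' (F : Set X)) ⊆ G M := by
    rintro x (⟨U, hU, rfl⟩ | ⟨z, -, rfl⟩)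
    · intro p hp
      exact h.gap U hU p hp _ (subset_closure (hw U hU))
    · exact hg z
  refine ⟨ofFin _ hfin hnes, hF _ ?_, ofFin_mem_Bs hfin hnes ?_ hsub⟩
  · intro z hz
    show |infDist z (w '' T ∪ g '' (F : Set X)) - infDist z (closure (G M))| < ε
    rw [infDist_closure, abs_sub_lt_iff]
    have h1 : infDist z (w '' T ∪ g '' (F : Set X)) ≤ dist z (g z) :=
      infDist_le_dist_of_mem (Or.inr ⟨z, hz, rfl⟩)
    have h2 := hgd z
    have h3 : infDist z (G M) ≤ infDist z (w '' T ∪ g '' (F : Set X)) :=
      infDist_le_infDist_of_subset hsub hnes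
    constructor <;> linarith
  · intro U hU
    exact ⟨w U, Or.inl ⟨U, hU, rfl⟩, hw U hU⟩

lemma G_nonempty {T : Set (Set X)} {M : Set (X × ℝ)} (h : Adm T M) : (G M).Nonempty := by
  obtain ⟨U, hU⟩ := h.ne
  obtain ⟨x, hx⟩ := h.nonempty U hU
  exact ⟨x, fun p hp => h.gap U hU p hp _ (subset_closure hx)⟩

/-- Fact 3 -/
lemma fact3 {T T' : Set (Set X)} {M M' : Set (X × ℝ)} (h' : Adm T' M')
    (hcl : closure (Bs T' M') ⊆ Bs T M) : ∀ p ∈ M, p.2 < infDist p.1 (G M') := by
  intro p hp
  have h1 : p.2 < infDist p.1 (closure (G M')) := (hcl (closure_G_mem h' (G_nonempty h'))).2 p hp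
  rwa [infDist_closure] at h1

/-- small basic sets -/
lemma exists_adm {O : Set (Hyp X)} (hO : IsOpen O) {A : Hyp X} (hA : A ∈ O) :
    ∃ (I : Set X) (M : Set (X × ℝ)) (ε : ℝ), I.Finite ∧ I.Nonempty ∧ I ⊆ A.1 ∧ 0 < ε ∧
      M.Finite ∧ (∀ p ∈ M, p.2 < infDist p.1 A.1) ∧
      ∀ T : Set (Set X), T.Finite → (∀ U ∈ T, IsOpen U) → (∀ U ∈ T, U.Nonempty) →
        (∀ a ∈ I, ∃ U ∈ T, U ⊆ ball a ε) → (∀ U ∈ T, ∃ a ∈ I, U ⊆ ball a ε) →
        Adm T M ∧ Bs T M ⊆ O := by
  classical
  obtain ⟨F, ε, he, hF⟩ := exists_fin_of_open hO hA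
  obtain ⟨a₀, ha₀⟩ := A.2.2
  have hz : ∀ z : X, ∃ y : X, y ∈ A.1 ∧ dist z y < infDist z A.1 + ε / 4 := by
    intro z
    have : infDist z A.1 < infDist z A.1 + ε / 4 := by linarith
    obtain ⟨y, hy, hd⟩ := (infDist_lt_iff A.2.2).1 this
    exact ⟨y, hy, hd⟩
  choose g hg hgd using hz
  refine ⟨insert a₀ (g '' (F : Set X)), (fun z => (z, infDist z A.1 - ε / 2)) '' (F : Set X),
    ε / 4, (F.finite_toSet.image g).insert a₀, insert_nonempty _ _, ?_, by linarith,
    F.finite_toSet.image _, ?_, ?_⟩
  · rintro x (rfl | ⟨z, -, rfl⟩)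
    · exact ha₀
    · exact hg z
  · rintro _ ⟨z, -, rfl⟩
    show infDist z A.1 - ε / 2 < infDist z A.1
    linarith
  · intro T hT ho hne h1 h2
    have hI : ∀ a ∈ (insert a₀ (g '' (F : Set X))), a ∈ A.1 := by
      rintro x (rfl | ⟨z, -, rfl⟩)
      · exact ha₀
      · exact hg z
    constructor
    · refine ⟨hT, F.finite_toSet.image _, ?_, ho, hne, ?_⟩
      · obtain ⟨U, hU, -⟩ := h1 a₀ (mem_insert _ _)
        exact ⟨U, hU⟩
      · rintro U hU _ ⟨z, -, rfl⟩ x hx
        obtain ⟨a, ha, hsub⟩ := h2 U hU
        have h3 : x ∈ closedBall a (ε / 4) := closure_ball_subset_closedBall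
          (closure_mono hsub hx)
        rw [mem_closedBall] at h3
        have h4 : infDist z A.1 ≤ dist z a := infDist_le_dist_of_mem (hI a ha)
        have h5 := dist_triangle z x a
        show infDist z A.1 - ε / 2 < dist z x
        linarith
    · intro B hB
      apply hF
      intro z hz
      rw [abs_sub_lt_iff]
      constructor
      · obtain ⟨U, hU, hsub⟩ := h1 (g z) (mem_insert_of_mem _ ⟨z, hz, rfl⟩)
        obtain ⟨b, hb, hbU⟩ := hB.1 U hU
        have h3 : dist b (g z) < ε / 4 := hsub hbU
        have h4 : infDist z B.1 ≤ dist z b := infDist_le_dist_of_mem hb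
        have h5 := dist_triangle z (g z) b
        have h6 := hgd z
        rw [dist_comm] at h3
        linarith
      · have := hB.2 (z, infDist z A.1 - ε / 2) ⟨z, hz, rfl⟩
        simp only at this
        linarith

/-- The limit set. -/
lemma limit_mem {ι : Type*} [Nonempty ι] (T : ι → Set (Set X)) (M : ι → Set (X × ℝ))
    (hadm : ∀ i, Adm (T i) (M i))
    (H1 : ∀ i, ∃ j, closure (Bs (T j) (M j)) ⊆ Bs (T i) (M i))
    (H2 : ∀ i, ∀ U ∈ T i, (U ∩ ⋂ j, G (M j)).Nonempty) :
    (⋂ i, Bs (T i) (M i)).Nonempty := by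
  have hne : (⋂ j, G (M j)).Nonempty := by
    obtain ⟨i⟩ := (inferInstance : Nonempty ι)
    obtain ⟨U, hU⟩ := (hadm i).ne
    exact (H2 i U hU).mono inter_subset_right
  have hgap : ∀ i, ∀ p ∈ M i, p.2 < infDist p.1 (⋂ j, G (M j)) := by
    intro i p hp
    obtain ⟨j, hj⟩ := H1 i
    exact (fact3 (hadm j) hj p hp).trans_le
      (infDist_le_infDist_of_subset (iInter_subset _ j) hne)
  have hcl : IsClosed (⋂ j, G (M j)) := by
    rw [← closure_subset_iff_isClosed]
    intro x hx
    rw [mem_iInter]
    intro i p hp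
    have h1 := hgap i p hp
    rw [← infDist_closure] at h1
    exact h1.trans_le (infDist_le_dist_of_mem hx)
  refine ⟨⟨_, hcl, hne⟩, mem_iInter.2 fun i => ⟨fun U hU => ?_, hgap i⟩⟩
  rw [inter_comm]
  exact H2 i U hU

end Core

lemma quasiRegular_of_regular (Y : Type u) [TopologicalSpace Y] [RegularSpace Y] :
    QuasiRegular Y := by
  rintro O hO ⟨y, hy⟩
  obtain ⟨s, hs, hcl, hsO⟩ := exists_mem_nhds_isClosed_subset (hO.mem_nhds hy)
  refine ⟨interior s, isOpen_interior, ⟨y, mem_interior_iff_mem_nhds.2 hs⟩, ?_⟩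
  exact (closure_minimal interior_subset hcl).trans hsO

/-! ## Part (a) -/

theorem pseudocomplete_hyp (X : Type u) [MetricSpace X] (h : Pseudocomplete X) :
    Pseudocomplete (Hyp X) := by
  refine ⟨quasiRegular_of_regular _, ?_⟩
  obtain ⟨hq, P, hP, hlim⟩ := h
  let Q : ℕ → Set (Set X) := fun n => {U | U ∈ P n ∧ ∃ W : ℕ → Set X, W n = U ∧
    (∀ i ≤ n, W i ∈ P i) ∧ ∀ i < n, closure (W (i + 1)) ⊆ W i}
  have hQ : ∀ n, ∀ O : Set X, IsOpen O → O.Nonempty → ∃ U ∈ Q n, U ⊆ O := by
    intro n
    induction n with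
    | zero =>
      intro O hO hne
      obtain ⟨U, hU, hUO⟩ := (hP 0).2 O hO hne
      refine ⟨U, ⟨hU, fun _ => U, rfl, ?_, ?_⟩, hUO⟩
      · intro i hi
        rw [Nat.le_zero.1 hi]
        exact hU
      · intro i hi
        exact absurd hi (Nat.not_lt_zero i)
    | succ n ih =>
      intro O hO hne
      obtain ⟨U, ⟨hU, W, hW, hW1, hW2⟩, hUO⟩ := ih O hO hne
      obtain ⟨O', hO', hne', hcl⟩ := hq U ((hP n).1 U hU).1 ((hP n).1 U hU).2
      obtain ⟨U', hU', hUO'⟩ := (hP (n + 1)).2 O' hO' hne'
      refine ⟨U', ⟨hU', fun i => if i ≤ n then W i else U', ?_, ?_, ?_⟩, ?_⟩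
      · simp
      · intro i hi
        by_cases h : i ≤ n
        · simp only [h, if_true]
          exact hW1 i h
        · have : i = n + 1 := by omega
          subst this
          simpa using hU'
      · intro i hi
        have h : i ≤ n := by omega
        by_cases h2 : i + 1 ≤ n
        · simp only [h, h2, if_true]
          exact hW2 i (by omega)
        · have : i = n := by omega
          subst this
          simp only [h2, if_false, le_refl, if_true]
          rw [hW]
          exact (closure_mono hUO').trans hcl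
      · exact (subset_closure.trans ((closure_mono hUO').trans hcl)).trans hUO
  refine ⟨fun n => {V | ∃ T M, Adm T M ∧ T ⊆ Q n ∧ V = Bs T M}, ?_, ?_⟩
  · intro n
    constructor
    · rintro V ⟨T, M, hadm, -, rfl⟩
      refine ⟨isOpen_Bs hadm.finT hadm.finM hadm.op, ?_⟩
      choose f hf using hadm.nonempty
      obtain ⟨U₀, hU₀⟩ := hadm.ne
      have hw : ∀ U : Set X, ∃ y : X, U ∈ T → y ∈ U := by
        intro U
        by_cases hU : U ∈ T
        · exact ⟨f U hU, fun _ => hf U hU⟩
        · exact ⟨f U₀ hU₀, fun h => absurd h hU⟩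
      choose w hw using hw
      exact ⟨_, choice_mem hadm w fun U hU => hw U hU⟩
    · rintro O hO ⟨A, hA⟩
      obtain ⟨I, M, ε, hI, hIne, hIA, he, hM, hMA, hall⟩ := exists_adm hO hA
      have : ∀ a : X, ∃ U ∈ Q n, U ⊆ ball a ε := fun a =>
        hQ n (ball a ε) isOpen_ball ⟨a, mem_ball_self he⟩
      choose u hu hub using this
      obtain ⟨h1, h2⟩ := hall (u '' I) (hI.image u)
        (by rintro _ ⟨a, -, rfl⟩; exact ((hP n).1 _ (hu a).1).1)
        (by rintro _ ⟨a, -, rfl⟩; exact ((hP n).1 _ (hu a).1).2)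
        (fun a ha => ⟨u a, ⟨a, ha, rfl⟩, hub a⟩)
        (by rintro _ ⟨a, ha, rfl⟩; exact ⟨a, ha, hub a⟩)
      exact ⟨_, ⟨u '' I, M, h1, by rintro _ ⟨a, -, rfl⟩; exact hu a, rfl⟩, h2⟩
  · intro V hV hcl
    choose T M hadm hTQ hVe using hV
    have hcl' : ∀ n, closure (Bs (T (n + 1)) (M (n + 1))) ⊆ Bs (T n) (M n) := by
      intro n
      rw [← hVe, ← hVe]
      exact hcl n
    have hmono : ∀ m n, m ≤ n → Bs (T n) (M n) ⊆ Bs (T m) (M m) := by
      intro m n hmn
      induction n, hmn using Nat.le_induction with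
      | base => exact subset_rfl
      | succ n _ ih => exact (subset_closure.trans (hcl' n)).trans ih
    have : (⋂ n, V n) = ⋂ n, Bs (T n) (M n) := iInter_congr fun n => hVe n
    rw [this]
    apply limit_mem T M hadm
    · intro i
      exact ⟨i + 1, hcl' i⟩
    · intro n U hU
      have hstep : ∀ m, ∀ U ∈ T m, ∃ U' ∈ T (m + 1), closure U' ⊆ U := fun m =>
        fact1 (hadm (m + 1)) (hcl' m)
      obtain ⟨hUP, W, hW, hW1, hW2⟩ := hTQ n hU
      -- extend the chain upwards
      have hex : ∃ Z : ℕ → Set X, Z 0 = U ∧ (∀ k, Z k ∈ T (n + k)) ∧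
          ∀ k, closure (Z (k + 1)) ⊆ Z k := by
        choose nx hnx1 hnx2 using hstep
        let Z : (k : ℕ) → {U : Set X // U ∈ T (n + k)} := fun k =>
          Nat.rec (motive := fun k => {U : Set X // U ∈ T (n + k)}) ⟨U, hU⟩
            (fun k z => ⟨nx (n + k) z.1 z.2, hnx1 (n + k) z.1 z.2⟩) k
        exact ⟨fun k => (Z k).1, rfl, fun k => (Z k).2, fun k => hnx2 (n + k) (Z k).1 (Z k).2⟩
      obtain ⟨Z, hZ0, hZT, hZcl⟩ := hex
      have hfull := hlim (fun i => if i ≤ n then W i else Z (i - n)) ?_ ?_
      · obtain ⟨x, hx⟩ := hfull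
        rw [mem_iInter] at hx
        have hxZ : ∀ k, x ∈ Z k := by
          intro k
          have := hx (n + k)
          by_cases hk : k = 0
          · subst hk
            simp only [add_zero, le_refl, if_true] at this
            rw [hZ0, ← hW]
            exact this
          · have h1 : ¬ (n + k ≤ n) := by omega
            simp only [h1, if_false] at this
            rwa [show n + k - n = k by omega] at this
        refine ⟨x, hZ0 ▸ hxZ 0, ?_⟩
        rw [mem_iInter]
        intro j
        exact fact2 (hadm (n + j)) (hmono j (n + j) (by omega)) (Z j) (hZT j) (hxZ j)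
      · intro i
        by_cases hi : i ≤ n
        · simp only [hi, if_true]
          exact hW1 i hi
        · simp only [hi, if_false]
          have := (hTQ (n + (i - n)) (hZT (i - n))).1
          rwa [show n + (i - n) = i by omega] at this
      · intro i
        by_cases hi : i + 1 ≤ n
        · have : i ≤ n := by omega
          simp only [hi, this, if_true]
          exact hW2 i (by omega)
        · by_cases hi2 : i ≤ n
          · have : i = n := by omega
            subst this
            simp only [hi, if_false, le_refl, if_true]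
            rw [hW, ← hZ0, show i + 1 - i = 0 + 1 by omega]
            exact hZcl 0
          · simp only [hi, hi2, if_false]
            rw [show i + 1 - n = (i - n) + 1 by omega]
            exact hZcl (i - n)

/-! ## Part (b) -/

theorem subcompact_hyp (X : Type u) [MetricSpace X] (h : Subcompact X) :
    Subcompact (Hyp X) := by
  refine ⟨inferInstance, ?_⟩
  obtain ⟨-, B, hB, hlim⟩ := h
  -- small members
  let Bn : ℕ → Set (Set X) := fun n =>
    {U | U ∈ B ∧ U.Nonempty ∧ ∀ x ∈ U, ∀ y ∈ U, dist x y < 1 / ((n : ℝ) + 1)}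
  let Tn : ℕ → Set (Set X) := fun n =>
    {U | U ∈ Bn n ∧ ∃ x ∈ U, ∀ U' ∈ Bn n, WellOrderingRel U' U → x ∉ U'}
  have hcov : ∀ n, ∀ x : X, ∃ U ∈ Tn n, x ∈ U := by
    intro n x
    have hne : {U | U ∈ Bn n ∧ x ∈ U}.Nonempty := by
      have hpos : 0 < 1 / ((n : ℝ) + 1) / 2 := by positivity
      obtain ⟨U, hU, hxU, hsub⟩ := hB.exists_subset_of_mem_open
        (mem_ball_self hpos : x ∈ ball x (1 / ((n : ℝ) + 1) / 2)) isOpen_ball
      refine ⟨U, ⟨hU, ⟨x, hxU⟩, ?_⟩, hxU⟩
      intro a ha b hb
      have h1 := hsub ha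
      have h2 := hsub hb
      rw [mem_ball] at h1 h2
      have h3 := dist_triangle_right a b x
      linarith
    have wf : WellFounded (WellOrderingRel (α := Set X)) := WellOrderingRel.isWellOrder.wf
    refine ⟨wf.min _ hne, ⟨(wf.min_mem _ hne).1, x, (wf.min_mem _ hne).2, ?_⟩,
      (wf.min_mem _ hne).2⟩
    intro U' hU' hlt hx
    exact wf.not_lt_min {U | U ∈ Bn n ∧ x ∈ U} (x := U') ⟨hU', hx⟩ hlt
  let TT : Set (Set X) := {U | ∃ n, U ∈ Tn n}
  have hTTB : TT ⊆ B := by
    rintro U ⟨n, hU, -⟩
    exact hU.1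
  have hTTo : ∀ U ∈ TT, IsOpen U := fun U hU => hB.isOpen (hTTB hU)
  have hTTne : ∀ U ∈ TT, U.Nonempty := by
    rintro U ⟨n, hU, -⟩
    exact hU.2.1
  have hTTsmall : ∀ (x : X) (ε : ℝ), 0 < ε → ∃ U ∈ TT, x ∈ U ∧ U ⊆ ball x ε := by
    intro x ε he
    obtain ⟨n, hn⟩ := exists_nat_one_div_lt he
    obtain ⟨U, hU, hx⟩ := hcov n x
    exact ⟨U, ⟨n, hU⟩, hx, fun y hy => (hU.1.2.2 y hy x hx).trans hn⟩
  -- strictly decreasing sequences have small members
  have hdec : ∀ W : ℕ → Set X, (∀ n, W n ∈ TT) → (∀ n, W (n + 1) ⊆ W n) →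
      (∀ n, W (n + 1) ≠ W n) → ∀ ε : ℝ, 0 < ε → ∃ n, ∀ x ∈ W n, ∀ y ∈ W n, dist x y < ε := by
    intro W hW hsub hne ε he
    by_contra hcon
    push Not at hcon
    have hmono : ∀ m n, m ≤ n → W n ⊆ W m := by
      intro m n hmn
      induction n, hmn using Nat.le_induction with
      | base => exact subset_rfl
      | succ n _ ih => exact (hsub n).trans ih
    have hmono' : ∀ m n, m < n → W n ≠ W m := by
      intro m n hmn heq
      apply hne m
      apply subset_antisymm (hsub m)
      rw [← heq]
      exact hmono (m + 1) n hmn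
    choose l hl using hW
    obtain ⟨N, hN⟩ := exists_nat_one_div_lt he
    have hlN : ∀ n, l n < N := by
      intro n
      by_contra hge
      push Not at hge
      obtain ⟨x, hx, y, hy, hd⟩ := hcon n
      have h1 := (hl n).1.2.2 x hx y hy
      have h2 : (1 : ℝ) / ((l n : ℝ) + 1) ≤ 1 / ((N : ℝ) + 1) := by
        apply one_div_le_one_div_of_le (by positivity)
        have : (N : ℝ) ≤ l n := by exact_mod_cast hge
        linarith
      linarith
    -- pigeonhole
    obtain ⟨c, hc⟩ := Finite.exists_infinite_fiber (fun n => (⟨l n, hlN n⟩ : Fin N))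
    have hinf : ((fun n => (⟨l n, hlN n⟩ : Fin N)) ⁻¹' {c}).Infinite :=
      Set.infinite_coe_iff.1 hc
    have wf : WellFounded (WellOrderingRel (α := Set X)) := WellOrderingRel.isWellOrder.wf
    have hne2 : (W '' ((fun n => (⟨l n, hlN n⟩ : Fin N)) ⁻¹' {c})).Nonempty :=
      hinf.nonempty.image _
    obtain ⟨m, hm, hmin⟩ := wf.min_mem _ hne2
    obtain ⟨m', hm', hlt⟩ := hinf.exists_gt m
    have hnl : ¬ WellOrderingRel (W m') (W m) := by
      rw [hmin]
      exact wf.not_lt_min (W '' ((fun n => (⟨l n, hlN n⟩ : Fin N)) ⁻¹' {c})) (x := W m')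
        ⟨m', hm', rfl⟩
    have hlm : l m' = l m := by
      have h1 : (⟨l m, hlN m⟩ : Fin N) = c := hm
      have h2 : (⟨l m', hlN m'⟩ : Fin N) = c := hm'
      have := h2.trans h1.symm
      exact congrArg Fin.val this
    obtain ⟨x, hx, hx2⟩ := (hl m').2
    rcases trichotomous_of WellOrderingRel (W m') (W m) with h3 | h3 | h3
    · exact hnl h3
    · exact hmono' m m' hlt h3
    · refine hx2 (W m) ?_ h3 (hmono m m' hlt.le hx)
      rw [hlm]
      exact (hl m).1
  refine ⟨{V | ∃ T M, Adm T M ∧ T ⊆ TT ∧ V = Bs T M}, ?_, ?_⟩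
  · apply isTopologicalBasis_of_isOpen_of_nhds
    · rintro V ⟨T, M, hadm, -, rfl⟩
      exact isOpen_Bs hadm.finT hadm.finM hadm.op
    · intro A O hA hO
      obtain ⟨I, M, ε, hI, hIne, hIA, he, hM, hMA, hall⟩ := exists_adm hO hA
      choose u hu hxu hub using fun a => hTTsmall a ε he
      obtain ⟨h1, h2⟩ := hall (u '' I) (hI.image u)
        (by rintro _ ⟨a, -, rfl⟩; exact hTTo _ (hu a))
        (by rintro _ ⟨a, -, rfl⟩; exact hTTne _ (hu a))
        (fun a ha => ⟨u a, ⟨a, ha, rfl⟩, hub a⟩)
        (by rintro _ ⟨a, ha, rfl⟩; exact ⟨a, ha, hub a⟩)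
      refine ⟨_, ⟨u '' I, M, h1, by rintro _ ⟨a, -, rfl⟩; exact hu a, rfl⟩, ⟨?_, hMA⟩, h2⟩
      rintro _ ⟨a, ha, rfl⟩
      exact ⟨a, hIA ha, hxu a⟩
  · intro F hF hfb hreg
    have hrep : ∀ V : F, ∃ T M, Adm T M ∧ T ⊆ TT ∧ V.1 = Bs T M := fun V => hF V.2
    choose T M hadm hTT hVe using hrep
    have : Nonempty F := hfb.1.to_subtype
    have hreg' : ∀ V : F, ∃ V' : F, closure (Bs (T V') (M V')) ⊆ Bs (T V) (M V) := by
      intro V
      obtain ⟨V', hV', hcl⟩ := hreg V.1 V.2
      refine ⟨⟨V', hV'⟩, ?_⟩
      rw [← hVe, ← hVe]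
      exact hcl
    have hdir : ∀ V V' : F, ∃ V'' : F, closure (Bs (T V'') (M V'')) ⊆ Bs (T V) (M V) ∧
        closure (Bs (T V'') (M V'')) ⊆ Bs (T V') (M V') := by
      intro V V'
      obtain ⟨C, hC, hsub⟩ := hfb.2.2 V.1 V.2 V'.1 V'.2
      obtain ⟨V'', hV''⟩ := hreg' ⟨C, hC⟩
      refine ⟨V'', hV''.trans ?_, hV''.trans ?_⟩
      · rw [← hVe, ← hVe]
        exact hsub.trans inter_subset_left
      · rw [← hVe, ← hVe]
        exact hsub.trans inter_subset_right
    have key : (⋂ V : F, Bs (T V) (M V)).Nonempty := by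
      apply limit_mem T M hadm hreg'
      intro V₀ U₀ hU₀
      by_contra hcon
      rw [not_nonempty_iff_eq_empty] at hcon
      -- one step
      have hstep : ∀ s : {s : F × Set X // s.2 ∈ T s.1 ∧ s.2 ⊆ U₀},
          ∃ s' : {s : F × Set X // s.2 ∈ T s.1 ∧ s.2 ⊆ U₀},
            closure (Bs (T s'.1.1) (M s'.1.1)) ⊆ Bs (T s.1.1) (M s.1.1) ∧
            closure s'.1.2 ⊆ s.1.2 ∧ s'.1.2 ≠ s.1.2 := by
        rintro ⟨⟨V, U⟩, hU, hUU⟩
        simp only at hU hUU ⊢
        obtain ⟨x, hx⟩ := (hadm V).nonempty U hU
        have hxn : x ∉ ⋂ j, G (M j) := fun hx2 => by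
          have : x ∈ U₀ ∩ ⋂ j, G (M j) := ⟨hUU hx, hx2⟩
          rw [hcon] at this
          exact this
        rw [mem_iInter] at hxn
        push Not at hxn
        obtain ⟨V₁, hV₁⟩ := hxn
        obtain ⟨V', h1, h2⟩ := hdir V V₁
        obtain ⟨U', hU', hcl⟩ := fact1 (hadm V') h1 U hU
        have h3 := fact2 (hadm V') (subset_closure.trans h2) U' hU'
        refine ⟨⟨⟨V', U'⟩, hU', (subset_closure.trans hcl).trans hUU⟩, h1, hcl, ?_⟩
        intro heq
        apply hV₁
        apply h3
        have heq' : U' = U := heq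
        rw [heq']
        exact hx
      choose nx hn1 hn2 hn3 using hstep
      let s : ℕ → {s : F × Set X // s.2 ∈ T s.1 ∧ s.2 ⊆ U₀} := fun n =>
        nx^[n] ⟨⟨V₀, U₀⟩, hU₀, subset_rfl⟩
      have hs : ∀ n, s (n + 1) = nx (s n) := fun n => Function.iterate_succ_apply' nx n _
      have hUcl : ∀ n, closure (s (n + 1)).1.2 ⊆ (s n).1.2 := by
        intro n
        rw [hs]
        exact hn2 (s n)
      have hmem : ∀ n, (s n).1.2 ∈ TT := fun n => hTT _ (s n).2.1
      have hmono : ∀ m n, m ≤ n → (s n).1.2 ⊆ (s m).1.2 := by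
        intro m n hmn
        induction n, hmn using Nat.le_induction with
        | base => exact subset_rfl
        | succ n _ ih => exact (subset_closure.trans (hUcl n)).trans ih
      have hsmall := hdec (fun n => (s n).1.2) hmem
        (fun n => subset_closure.trans (hUcl n)) (fun n => by
          show (s (n + 1)).1.2 ≠ (s n).1.2
          rw [hs]
          exact hn3 (s n))
      have hx := hlim (range fun n => (s n).1.2) (by
        rintro _ ⟨n, rfl⟩
        exact hTTB (hmem n)) ⟨range_nonempty _, by
          rintro _ ⟨n, rfl⟩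
          exact hTTne _ (hmem n), by
          rintro _ ⟨m, rfl⟩ _ ⟨n, rfl⟩
          exact ⟨_, ⟨max m n, rfl⟩, subset_inter (hmono _ _ (le_max_left m n))
            (hmono _ _ (le_max_right m n))⟩⟩ (by
          rintro _ ⟨n, rfl⟩
          exact ⟨_, ⟨n + 1, rfl⟩, hUcl n⟩)
      obtain ⟨x, hx⟩ := hx
      have hxm : ∀ n, x ∈ (s n).1.2 := fun n => hx _ ⟨n, rfl⟩
      have hxA : x ∈ ⋂ j, G (M j) := by
        rw [mem_iInter]
        intro V p hp
        obtain ⟨V', hV'⟩ := hreg' V
        have hgap := fact3 (hadm V') hV' p hp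
        have hle : infDist p.1 (G (M V')) ≤ dist p.1 x := by
          apply le_of_forall_pos_lt_add
          intro ε he
          obtain ⟨n, hn⟩ := hsmall ε he
          obtain ⟨V'', h1, h2⟩ := hdir V' (s n).1.1
          obtain ⟨U'', hU'', hcl⟩ := fact1 (hadm V'') h2 _ (s n).2.1
          have h3 := fact2 (hadm V'') (subset_closure.trans h1) U'' hU''
          obtain ⟨b, hb⟩ := (hadm V'').nonempty U'' hU''
          have h4 := hn x (hxm n) b (hcl (subset_closure hb))
          have h5 := infDist_le_dist_of_mem (x := p.1) (h3 hb)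
          have h6 := dist_triangle p.1 x b
          linarith
        exact hgap.trans_le hle
      have : x ∈ U₀ ∩ ⋂ j, G (M j) := ⟨hxm 0, hxA⟩
      rw [hcon] at this
      exact this
    obtain ⟨A, hA⟩ := key
    refine ⟨A, ?_⟩
    intro V hV
    have := mem_iInter.1 hA ⟨V, hV⟩
    rw [← hVe] at this
    exact this

/-! ## Part (c): the counterexample -/

/-- `rr k = 1/(k+1)` -/
noncomputable def rr (k : ℕ) : ℝ := 1 / ((k : ℝ) + 1)

lemma rr_pos (k : ℕ) : 0 < rr k := by unfold rr; positivity

lemma rr_le_one (k : ℕ) : rr k ≤ 1 := by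
  unfold rr
  rw [div_le_one (by positivity)]
  have : (0 : ℝ) ≤ k := by positivity
  linarith

lemma rr_anti {i k : ℕ} (h : i ≤ k) : rr k ≤ rr i := by
  unfold rr
  apply one_div_le_one_div_of_le (by positivity)
  have : (i : ℝ) ≤ k := by exact_mod_cast h
  linarith

lemma rr_lt {i k : ℕ} (h : rr i < rr k) : k < i := by
  by_contra hcon
  push Not at hcon
  exact absurd (rr_anti hcon) (not_le.2 h)

/-- The piece `U = {∞} ∪ (ℕ × ℕ)`: `none` is the point at infinity. -/
abbrev Pc : Type := Option (ℕ × ℕ)

/-- height -/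
noncomputable def ht : Pc → ℝ
  | none => 0
  | some p => rr p.1

lemma ht_nonneg (v : Pc) : 0 ≤ ht v := by
  cases v with
  | none => exact le_rfl
  | some p => exact (rr_pos p.1).le

lemma ht_le_one (v : Pc) : ht v ≤ 1 := by
  cases v with
  | none => exact zero_le_one
  | some p => exact rr_le_one p.1

open Classical in
/-- the metric on the piece -/
noncomputable def ed (u v : Pc) : ℝ := if u = v then 0 else max (ht u) (ht v)

lemma ed_self (u : Pc) : ed u u = 0 := by simp [ed]

lemma ed_comm (u v : Pc) : ed u v = ed v u := by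
  unfold ed
  by_cases h : u = v
  · simp [h]
  · rw [if_neg h, if_neg (Ne.symm h), max_comm]

lemma ed_nonneg (u v : Pc) : 0 ≤ ed u v := by
  unfold ed
  split_ifs
  · exact le_rfl
  · exact le_max_of_le_left (ht_nonneg u)

lemma ed_le_one (u v : Pc) : ed u v ≤ 1 := by
  unfold ed
  split_ifs
  · exact zero_le_one
  · exact max_le (ht_le_one u) (ht_le_one v)

lemma ht_le_ed {u v : Pc} (h : u ≠ v) : ht u ≤ ed u v := by
  unfold ed
  rw [if_neg h]
  exact le_max_left _ _

lemma ed_triangle (u v w : Pc) : ed u w ≤ ed u v + ed v w := by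
  by_cases h1 : u = w
  · subst h1
    rw [ed_self]
    exact add_nonneg (ed_nonneg _ _) (ed_nonneg _ _)
  · by_cases h2 : u = v
    · subst h2
      rw [ed_self, zero_add]
    · by_cases h3 : v = w
      · subst h3
        rw [ed_self, add_zero]
      · have e1 : ed u w = max (ht u) (ht w) := by unfold ed; rw [if_neg h1]
        rw [e1]
        apply max_le
        · exact (ht_le_ed h2).trans (le_add_of_nonneg_right (ed_nonneg _ _))
        · rw [ed_comm v w]
          exact (ht_le_ed (Ne.symm h3)).trans (le_add_of_nonneg_left (ed_nonneg _ _))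

lemma ed_eq_zero {u v : Pc} (h : ed u v = 0) : u = v := by
  by_contra hne
  have h1 := ht_le_ed hne
  have h2 := ht_le_ed (Ne.symm hne)
  rw [ed_comm] at h2
  rw [h] at h1 h2
  cases u with
  | none =>
    cases v with
    | none => exact hne rfl
    | some q =>
      have := rr_pos q.1
      unfold ht at h2
      linarith
  | some p =>
    have := rr_pos p.1
    unfold ht at h1
    linarith

/-- the index set of the test points -/
abbrev Ts : Type := ℕ ⊕ (ℕ × ℕ)

/-- `Hit s v`: the closed unit ball around the test point `s` contains the point `v` of each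
piece. -/
def Hit : Ts → Pc → Prop
  | Sum.inl _, none => True
  | Sum.inl k, some p => k ≤ p.1
  | Sum.inr q, v => v = some q

/-- `HitX s n`: the closed unit ball around the test point `s` contains `x n`. -/
def HitX : Ts → ℕ → Prop
  | Sum.inl k, n => k ≤ n
  | Sum.inr _, _ => False

/-- the excess -/
noncomputable def ex : Ts → ℝ
  | Sum.inl k => rr k
  | Sum.inr q => rr q.1

lemma ex_pos (s : Ts) : 0 < ex s := by
  cases s <;> exact rr_pos _

lemma ex_le_one (s : Ts) : ex s ≤ 1 := by
  cases s <;> exact rr_le_one _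

lemma ex_le_ed {s : Ts} {u v : Pc} (hu : Hit s u) (hv : ¬ Hit s v) : ex s ≤ ed u v := by
  have hne : u ≠ v := by
    rintro rfl
    exact hv hu
  cases s with
  | inl k =>
    cases v with
    | none => exact absurd trivial hv
    | some p =>
      have h1 : p.1 < k := by
        simp only [Hit] at hv
        omega
      have h2 := ht_le_ed (Ne.symm hne)
      rw [ed_comm] at h2
      exact (rr_anti h1.le).trans h2
  | inr q =>
    have h1 : u = some q := hu
    have h2 := ht_le_ed hne
    rw [h1] at h2 ⊢
    exact h2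

open Classical in
/-- the distance between a test point and a point of a piece -/
noncomputable def dU (s : Ts) (v : Pc) : ℝ := if Hit s v then 1 else 1 + ex s

open Classical in
/-- the distance between a test point and `x n` -/
noncomputable def dX (s : Ts) (n : ℕ) : ℝ := if HitX s n then 1 else 1 + ex s

lemma dU_ge (s : Ts) (v : Pc) : 1 ≤ dU s v := by
  unfold dU
  split_ifs
  · exact le_rfl
  · linarith [ex_pos s]

lemma dU_le (s : Ts) (v : Pc) : dU s v ≤ 2 := by
  unfold dU
  split_ifs
  · norm_num
  · linarith [ex_le_one s]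

lemma dX_ge (s : Ts) (n : ℕ) : 1 ≤ dX s n := by
  unfold dX
  split_ifs
  · exact le_rfl
  · linarith [ex_pos s]

lemma dX_le (s : Ts) (n : ℕ) : dX s n ≤ 2 := by
  unfold dX
  split_ifs
  · norm_num
  · linarith [ex_le_one s]

lemma dU_lip (s : Ts) (u v : Pc) : dU s u ≤ dU s v + ed u v := by
  have h0 := ed_nonneg u v
  unfold dU
  by_cases hu : Hit s u <;> by_cases hv : Hit s v
  · simp only [hu, hv, if_true]; linarith
  · simp only [hu, hv, if_true, if_false]; linarith [ex_pos s]
  · simp only [hu, hv, if_true, if_false]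
    have := ex_le_ed hv hu
    rw [ed_comm] at this
    linarith
  · simp only [hu, hv, if_false]; linarith

/-- The underlying set of the counterexample. -/
inductive Pt : Type
  /-- test points -/
  | t (s : Ts)
  /-- the points `x n` -/
  | x (n : ℕ)
  /-- the pieces -/
  | u (α : ℝ) (v : Pc)

open Classical in
/-- The distance on `Pt`. -/
noncomputable def Pt.d : Pt → Pt → ℝ
  | .t s, .t s' => if s = s' then 0 else 2
  | .t s, .x n => dX s n
  | .t s, .u _ v => dU s v
  | .x n, .t s => dX s n
  | .x n, .x m => if n = m then 0 else 2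
  | .x _, .u _ _ => 2
  | .u _ v, .t s => dU s v
  | .u _ _, .x _ => 2
  | .u α v, .u β w => if α = β then ed v w else 2

lemma Pt.d_self (a : Pt) : Pt.d a a = 0 := by
  cases a <;> simp [Pt.d, ed_self]

lemma Pt.d_comm (a b : Pt) : Pt.d a b = Pt.d b a := by
  cases a <;> cases b <;> simp only [Pt.d, eq_comm, ed_comm]

lemma Pt.d_triangle (a b c : Pt) : Pt.d a c ≤ Pt.d a b + Pt.d b c := by
  cases a with
  | t s =>
    cases b with
    | t s' =>
      cases c with
      | t s'' => 
        simp only [Pt.d]
        by_cases h1 : s = s'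
        · subst h1; simp
        · simp only [h1, if_false]
          split_ifs <;> norm_num
      | x n =>
        simp only [Pt.d]
        by_cases h1 : s = s'
        · subst h1; simp
        · simp only [h1, if_false]
          linarith [dX_le s n, dX_ge s' n]
      | u α v =>
        simp only [Pt.d]
        by_cases h1 : s = s'
        · subst h1; simp
        · simp only [h1, if_false]
          linarith [dU_le s v, dU_ge s' v]
    | x n =>
      cases c with
      | t s'' =>
        simp only [Pt.d]
        split_ifs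
        · linarith [dX_ge s n, dX_ge s'' n]
        · linarith [dX_ge s n, dX_ge s'' n]
      | x m =>
        simp only [Pt.d]
        by_cases h1 : n = m
        · subst h1; simp
        · simp only [h1, if_false]
          linarith [dX_le s m, dX_ge s n]
      | u α v =>
        simp only [Pt.d]
        linarith [dU_le s v, dX_ge s n]
    | u α v =>
      cases c with
      | t s'' =>
        simp only [Pt.d]
        split_ifs
        · linarith [dU_ge s v, dU_ge s'' v]
        · linarith [dU_ge s v, dU_ge s'' v]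
      | x m =>
        simp only [Pt.d]
        linarith [dX_le s m, dU_ge s v]
      | u β w =>
        simp only [Pt.d]
        by_cases h1 : α = β
        · subst h1
          simp only [if_true]
          have := dU_lip s w v
          rw [ed_comm] at this
          exact this
        · simp only [h1, if_false]
          linarith [dU_le s w, dU_ge s v]
  | x k =>
    cases b with
    | t s' =>
      cases c with
      | t s'' => 
        simp only [Pt.d]
        by_cases h1 : s' = s''
        · subst h1; simp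
        · simp only [h1, if_false]
          linarith [dX_le s'' k, dX_ge s' k]
      | x n =>
        simp only [Pt.d]
        split_ifs
        · linarith [dX_ge s' k, dX_ge s' n]
        · linarith [dX_ge s' k, dX_ge s' n]
      | u α v =>
        simp only [Pt.d]
        linarith [dX_ge s' k, dU_ge s' v]
    | x n =>
      cases c with
      | t s'' =>
        simp only [Pt.d]
        by_cases h1 : k = n
        · subst h1; simp
        · simp only [h1, if_false]
          linarith [dX_le s'' k, dX_ge s'' n]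
      | x m =>
        simp only [Pt.d]
        by_cases h1 : k = n
        · subst h1; simp
        · simp only [h1, if_false]
          split_ifs <;> norm_num
      | u α v =>
        simp only [Pt.d]
        split_ifs <;> norm_num
    | u α v =>
      cases c with
      | t s'' =>
        simp only [Pt.d]
        linarith [dX_le s'' k, dU_ge s'' v]
      | x m =>
        simp only [Pt.d]
        split_ifs <;> norm_num
      | u β w =>
        simp only [Pt.d]
        split_ifs
        · linarith [ed_nonneg v w]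
        · norm_num
  | u γ q =>
    cases b with
    | t s' =>
      cases c with
      | t s'' => 
        simp only [Pt.d]
        by_cases h1 : s' = s''
        · subst h1; simp
        · simp only [h1, if_false]
          linarith [dU_le s'' q, dU_ge s' q]
      | x n =>
        simp only [Pt.d]
        linarith [dU_ge s' q, dX_ge s' n]
      | u α v =>
        simp only [Pt.d]
        split_ifs
        · linarith [ed_le_one q v, dU_ge s' q, dU_ge s' v]
        · linarith [dU_ge s' q, dU_ge s' v]
    | x n =>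
      cases c with
      | t s'' =>
        simp only [Pt.d]
        linarith [dU_le s'' q, dX_ge s'' n]
      | x m =>
        simp only [Pt.d]
        split_ifs <;> norm_num
      | u α v =>
        simp only [Pt.d]
        split_ifs
        · linarith [ed_le_one q v]
        · norm_num
    | u α v =>
      cases c with
      | t s'' =>
        simp only [Pt.d]
        by_cases h1 : γ = α
        · subst h1
          simp only [if_true]
          have := dU_lip s'' q v
          linarith
        · simp only [h1, if_false]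
          linarith [dU_le s'' q, dU_ge s'' v]
      | x m =>
        simp only [Pt.d]
        split_ifs
        · linarith [ed_nonneg q v]
        · norm_num
      | u β w =>
        simp only [Pt.d]
        by_cases h1 : γ = α
        · subst h1
          by_cases h2 : γ = β
          · subst h2
            simp only [if_true]
            exact ed_triangle q v w
          · simp only [h2, if_true, if_false]
            linarith [ed_nonneg q v]
        · by_cases h2 : α = β
          · subst h2
            simp only [h1, if_true, if_false]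
            linarith [ed_nonneg v w]
          · simp only [h1, h2, if_false]
            split_ifs
            · linarith [ed_le_one q w]
            · norm_num

lemma Pt.eq_of_d (a b : Pt) (h : Pt.d a b = 0) : a = b := by
  cases a with
  | t s =>
    cases b with
    | t s' =>
      simp only [Pt.d] at h
      by_cases h1 : s = s'
      · rw [h1]
      · simp [h1] at h
    | x n => simp only [Pt.d] at h; linarith [dX_ge s n]
    | u α v => simp only [Pt.d] at h; linarith [dU_ge s v]
  | x k =>
    cases b with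
    | t s' => simp only [Pt.d] at h; linarith [dX_ge s' k]
    | x n =>
      simp only [Pt.d] at h
      by_cases h1 : k = n
      · rw [h1]
      · simp [h1] at h
    | u α v => simp [Pt.d] at h
  | u γ q =>
    cases b with
    | t s' => simp only [Pt.d] at h; linarith [dU_ge s' q]
    | x n => simp [Pt.d] at h
    | u α v =>
      simp only [Pt.d] at h
      by_cases h1 : γ = α
      · simp only [h1, if_true] at h
        rw [h1, ed_eq_zero h]
      · simp [h1] at h

noncomputable instance : MetricSpace Pt where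
  dist := Pt.d
  dist_self := Pt.d_self
  dist_comm := Pt.d_comm
  dist_triangle := Pt.d_triangle
  eq_of_dist_eq_zero := fun {a b} h => Pt.eq_of_d a b h


lemma dist_tt (s s' : Ts) : dist (Pt.t s) (Pt.t s') = if s = s' then (0 : ℝ) else 2 := by
  show Pt.d _ _ = _
  simp only [Pt.d]

lemma dist_tx (s : Ts) (n : ℕ) : dist (Pt.t s) (Pt.x n) = dX s n := rfl
lemma dist_tu (s : Ts) (α : ℝ) (v : Pc) : dist (Pt.t s) (Pt.u α v) = dU s v := rfl
lemma dist_xt (s : Ts) (n : ℕ) : dist (Pt.x n) (Pt.t s) = dX s n := rfl
lemma dist_xx (n m : ℕ) : dist (Pt.x n) (Pt.x m) = if n = m then (0 : ℝ) else 2 := by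
  show Pt.d _ _ = _
  simp only [Pt.d]
lemma dist_xu (n : ℕ) (α : ℝ) (v : Pc) : dist (Pt.x n) (Pt.u α v) = 2 := rfl
lemma dist_ut (s : Ts) (α : ℝ) (v : Pc) : dist (Pt.u α v) (Pt.t s) = dU s v := rfl
lemma dist_ux (n : ℕ) (α : ℝ) (v : Pc) : dist (Pt.u α v) (Pt.x n) = 2 := rfl
lemma dist_uu (α β : ℝ) (v w : Pc) :
    dist (Pt.u α v) (Pt.u β w) = if α = β then ed v w else 2 := by
  show Pt.d _ _ = _
  simp only [Pt.d]

/-- isolated points -/
def Iso : Pt → Prop
  | .t _ => True
  | .x _ => True
  | .u _ v => v ≠ none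

lemma iso_gap {a : Pt} (ha : Iso a) : ∃ ε : ℝ, 0 < ε ∧ ∀ b : Pt, dist a b < ε → b = a := by
  cases a with
  | t s =>
    refine ⟨1, one_pos, ?_⟩
    intro b hb
    cases b with
    | t s' =>
      rw [dist_tt] at hb
      by_cases h : s = s'
      · rw [h]
      · rw [if_neg h] at hb; norm_num at hb
    | x n => rw [dist_tx] at hb; linarith [dX_ge s n]
    | u α v => rw [dist_tu] at hb; linarith [dU_ge s v]
  | x n =>
    refine ⟨1, one_pos, ?_⟩
    intro b hb
    cases b with
    | t s' => rw [dist_xt] at hb; linarith [dX_ge s' n]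
    | x m =>
      rw [dist_xx] at hb
      by_cases h : n = m
      · rw [h]
      · rw [if_neg h] at hb; norm_num at hb
    | u α v => rw [dist_xu] at hb; norm_num at hb
  | u α v =>
    cases v with
    | none => exact absurd rfl ha
    | some p =>
      refine ⟨rr p.1, rr_pos _, ?_⟩
      intro b hb
      cases b with
      | t s' => rw [dist_ut] at hb; linarith [dU_ge s' (some p), rr_le_one p.1]
      | x m => rw [dist_ux] at hb; linarith [rr_le_one p.1]
      | u β w =>
        rw [dist_uu] at hb
        by_cases h : α = β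
        · subst h
          rw [if_pos rfl] at hb
          by_cases h2 : (some p : Pc) = w
          · rw [h2]
          · have := ht_le_ed h2
            simp only [ht] at this
            linarith
        · rw [if_neg h] at hb
          linarith [rr_le_one p.1]

/-- the neighbourhoods of the non-isolated points -/
def On (α : ℝ) (n : ℕ) : Set Pt := {a | ∃ v : Pc, a = .u α v ∧ ∀ p, v = some p → n ≤ p.1}

lemma isOpen_On (α : ℝ) (n : ℕ) : IsOpen (On α n) := by
  rw [Metric.isOpen_iff]
  rintro _ ⟨v, rfl, hv⟩
  cases v with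
  | none =>
    refine ⟨rr n, rr_pos n, ?_⟩
    intro b hb
    rw [mem_ball, dist_comm] at hb
    cases b with
    | t s' => rw [dist_ut] at hb; linarith [dU_ge s' none, rr_le_one n]
    | x m => rw [dist_ux] at hb; linarith [rr_le_one n]
    | u β w =>
      rw [dist_uu] at hb
      by_cases h : α = β
      · subst h
        rw [if_pos rfl] at hb
        refine ⟨w, rfl, ?_⟩
        rintro p rfl
        have h1 := ht_le_ed (u := some p) (v := none) (by simp)
        rw [ed_comm] at h1
        simp only [ht] at h1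
        exact (rr_lt (h1.trans_lt hb)).le
      · rw [if_neg h] at hb
        linarith [rr_le_one n]
  | some p =>
    obtain ⟨ε, he, hb⟩ := iso_gap (a := .u α (some p)) (by simp [Iso])
    refine ⟨ε, he, ?_⟩
    intro b hb2
    rw [mem_ball, dist_comm] at hb2
    rw [hb b hb2]
    exact ⟨some p, rfl, hv⟩

theorem baseCompact_Pt : BaseCompact Pt := by
  refine ⟨inferInstance, {U | (∃ a, Iso a ∧ U = {a}) ∨ ∃ α n, U = On α n}, ?_, ?_⟩
  · apply isTopologicalBasis_of_isOpen_of_nhds
    · rintro U (⟨a, ha, rfl⟩ | ⟨α, n, rfl⟩)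
      · obtain ⟨ε, he, hb⟩ := iso_gap ha
        rw [Metric.isOpen_iff]
        rintro b rfl
        refine ⟨ε, he, fun c hc => ?_⟩
        rw [mem_ball, dist_comm] at hc
        exact hb c hc
      · exact isOpen_On α n
    · intro a O ha hO
      by_cases hi : Iso a
      · exact ⟨{a}, Or.inl ⟨a, hi, rfl⟩, rfl, singleton_subset_iff.2 ha⟩
      · cases a with
        | t s => exact absurd trivial hi
        | x n => exact absurd trivial hi
        | u α v =>
          have hv : v = none := by
            by_contra h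
            exact hi h
          subst hv
          obtain ⟨ε, he, hb⟩ := Metric.isOpen_iff.1 hO _ ha
          obtain ⟨n, hn⟩ := exists_nat_one_div_lt he
          refine ⟨On α n, Or.inr ⟨α, n, rfl⟩, ⟨none, rfl, by simp⟩, ?_⟩
          rintro _ ⟨v, rfl, hv⟩
          apply hb
          rw [mem_ball, dist_uu, if_pos rfl]
          cases v with
          | none => rw [ed_self]; exact he
          | some p =>
            have h1 : ed (some p) none = rr p.1 := by
              unfold ed
              rw [if_neg (by simp)]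
              simp only [ht]
              exact max_eq_left (rr_pos _).le
            rw [h1]
            exact (rr_anti (hv p rfl)).trans_lt hn
  · intro C hC hcen
    by_cases h1 : ∃ a, Iso a ∧ {a} ∈ C
    · obtain ⟨a, -, haC⟩ := h1
      refine ⟨a, ?_⟩
      rw [mem_iInter₂]
      intro c hc
      obtain ⟨b, hb⟩ := hcen {{a}, c} (by
        rintro x (rfl | rfl)
        · exact haC
        · exact hc) (by simp)
      rw [mem_sInter] at hb
      have hb1 : b = a := hb {a} (by simp)
      have hb2 := hb c (by simp)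
      rw [hb1] at hb2
      exact subset_closure hb2
    · by_cases h2 : C.Nonempty
      · obtain ⟨c, hc⟩ := h2
        rcases hC hc with ⟨a, ha, rfl⟩ | ⟨α, n, rfl⟩
        · exact absurd ⟨a, ha, hc⟩ h1
        · refine ⟨.u α none, ?_⟩
          rw [mem_iInter₂]
          intro c' hc'
          rcases hC hc' with ⟨a, ha, rfl⟩ | ⟨β, m, rfl⟩
          · exact absurd ⟨a, ha, hc'⟩ h1
          · obtain ⟨b, hb⟩ := hcen {On α n, On β m} (by
              rintro x (rfl | rfl)
              · exact hc
              · exact hc') (by simp)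
            rw [mem_sInter] at hb
            obtain ⟨v, hv, -⟩ := hb (On α n) (by simp)
            obtain ⟨w, hw, -⟩ := hb (On β m) (by simp)
            have hαβ : α = β := by
              rw [hv] at hw
              injection hw
            subst hαβ
            exact subset_closure ⟨none, rfl, by simp⟩
      · rw [not_nonempty_iff_eq_empty] at h2
        subst h2
        exact ⟨.x 0, by simp⟩

lemma infDist_le_add {Y : Type*} [MetricSpace Y] {A B : Set Y} {z : Y} {δ : ℝ}
    (hB : B.Nonempty) (h : ∀ b ∈ B, ∃ a ∈ A, dist z a ≤ dist z b + δ) :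
    infDist z A ≤ infDist z B + δ := by
  apply le_of_forall_pos_lt_add
  intro ε he
  have : infDist z B < infDist z B + ε := by linarith
  obtain ⟨b, hb, hd⟩ := (infDist_lt_iff hB).1 this
  obtain ⟨a, ha, hd2⟩ := h b hb
  have := infDist_le_dist_of_mem (x := z) ha
  linarith

/-- `xs n = {x 0, …, x n}` -/
def xs (n : ℕ) : Set Pt := {a | ∃ m, m ≤ n ∧ a = .x m}

lemma xs_finite (n : ℕ) : (xs n).Finite := by
  have : xs n = Pt.x '' {m | m ≤ n} := by
    ext a
    constructor
    · rintro ⟨m, hm, rfl⟩
      exact ⟨m, hm, rfl⟩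
    · rintro ⟨m, hm, rfl⟩
      exact ⟨m, hm, rfl⟩
  rw [this]
  exact (finite_le_nat n).image _

lemma xs_nonempty (n : ℕ) : (xs n).Nonempty := ⟨.x 0, 0, Nat.zero_le n, rfl⟩

lemma one_lt_or (s : Ts) (b : Pt) (h : 1 < dist (Pt.t s) b) : 1 + ex s ≤ dist (Pt.t s) b := by
  cases b with
  | t s' =>
    rw [dist_tt] at h ⊢
    by_cases h1 : s = s'
    · rw [if_pos h1] at h
      norm_num at h
    · rw [if_neg h1]
      linarith [ex_le_one s]
  | x n =>
    rw [dist_tx] at h ⊢
    unfold dX at h ⊢
    split_ifs at h ⊢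
    · exact absurd h (lt_irrefl _)
    · exact le_rfl
  | u α v =>
    rw [dist_tu] at h ⊢
    unfold dU at h ⊢
    split_ifs at h ⊢
    · exact absurd h (lt_irrefl _)
    · exact le_rfl

lemma closure_gt (s : Ts) {W : Set (Hyp Pt)} (hW : ∀ B ∈ W, 1 < infDist (Pt.t s) B.1) :
    ∀ B ∈ closure W, ∀ b ∈ B.1, 1 < dist (Pt.t s) b := by
  have h1 : W ⊆ {B : Hyp Pt | 1 + ex s ≤ infDist (Pt.t s) B.1} := by
    intro B hB
    show 1 + ex s ≤ infDist (Pt.t s) B.1
    apply (le_infDist B.2.2).2
    intro b hb
    exact one_lt_or s b ((hW B hB).trans_le (infDist_le_dist_of_mem hb))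
  have h2 : IsClosed {B : Hyp Pt | 1 + ex s ≤ infDist (Pt.t s) B.1} :=
    isClosed_le continuous_const (continuous_infDist_hyp _)
  intro B hB b hb
  have h3 : 1 + ex s ≤ infDist (Pt.t s) B.1 := closure_minimal h1 h2 hB
  have h4 := infDist_le_dist_of_mem (x := Pt.t s) hb
  linarith [ex_pos s]

theorem not_baseCompact_hyp_Pt : ¬ BaseCompact (Hyp Pt) := by
  rintro ⟨-, B, hB, hlim⟩
  -- the sets `W s n`
  have hex1 : ∀ (s : Ts) (n : ℕ), ¬ HitX s n → ∃ W ∈ B,
      ofFin (xs n) (xs_finite n) (xs_nonempty n) ∈ W ∧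
      (∀ A ∈ W, 1 < infDist (Pt.t s) A.1) := by
    intro s n hs
    have hopen : IsOpen {A : Hyp Pt | 1 < infDist (Pt.t s) A.1} :=
      isOpen_lt continuous_const (continuous_infDist_hyp _)
    have hmem : ofFin (xs n) (xs_finite n) (xs_nonempty n) ∈
        {A : Hyp Pt | 1 < infDist (Pt.t s) A.1} := by
      apply lt_infDist_ofFin (xs_finite n) (xs_nonempty n)
      rintro _ ⟨m, hm, rfl⟩
      rw [dist_tx]
      unfold dX
      have : ¬ HitX s m := by
        intro h
        apply hs
        cases s with
        | inl k => exact le_trans h hm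
        | inr q => exact h
      rw [if_neg this]
      linarith [ex_pos s]
    obtain ⟨W, hW, hmW, hsub⟩ := hB.exists_subset_of_mem_open hmem hopen
    exact ⟨W, hW, hmW, fun A hA => hsub hA⟩
  choose W hWB hWmem hWgt using hex1
  have hex2 : ∀ (s : Ts) (n : ℕ) (h : ¬ HitX s n), ∃ F : Finset Pt, ∃ ε : ℝ, 0 < ε ∧
      ∀ A : Hyp Pt, (∀ z ∈ F, |infDist z A.1 - infDist z (xs n)| < ε) → A ∈ W s n h := by
    intro s n h
    obtain ⟨F, ε, he, hF⟩ := exists_fin_of_open (hB.isOpen (hWB s n h)) (hWmem s n h)
    refine ⟨F, ε, he, fun A hA => hF A fun z hz => ?_⟩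
    rw [ofFin_val]
    exact hA z hz
  choose F ε hε hF using hex2
  -- choose `α`
  have hcount : (⋃ (s : Ts) (n : ℕ) (h : ¬ HitX s n), ((F s n h : Finset Pt) : Set Pt)).Countable := by
    refine countable_iUnion fun s => countable_iUnion fun n => countable_iUnion fun h => ?_
    exact (F s n h).countable_toSet
  let proj : Pt → ℝ := fun a => match a with
    | .t _ => 0
    | .x _ => 0
    | .u α _ => α
  obtain ⟨α, hα⟩ : ∃ α : ℝ, α ∉
      proj '' (⋃ (s : Ts) (n : ℕ) (h : ¬ HitX s n), ((F s n h : Finset Pt) : Set Pt)) := by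
    by_contra hcon
    push Not at hcon
    have huniv : proj '' (⋃ (s : Ts) (n : ℕ) (h : ¬ HitX s n), ((F s n h : Finset Pt) : Set Pt))
        = univ := eq_univ_of_forall hcon
    have hc := hcount.image proj
    rw [huniv] at hc
    exact not_countable_univ hc
  have hα' : ∀ s n h v, Pt.u α v ∉ F s n h := by
    intro s n h v hmem
    apply hα
    refine ⟨.u α v, ?_, rfl⟩
    simp only [mem_iUnion]
    exact ⟨s, n, h, hmem⟩
  -- the set `A∞`
  let Ai : Set Pt := insert (.u α none) (range Pt.x)
  have hAicl : IsClosed Ai := by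
    apply Metric.isClosed_of_pairwise_le_dist (ε := 1) one_pos
    rintro a (rfl | ⟨m, rfl⟩) b (rfl | ⟨m', rfl⟩) hne
    · exact absurd rfl hne
    · rw [dist_ux]; norm_num
    · rw [dist_xu]; norm_num
    · rw [dist_xx]
      split_ifs with h
      · exact absurd (congrArg Pt.x h) hne
      · norm_num
  have hAine : Ai.Nonempty := insert_nonempty _ _
  obtain ⟨V, hVB, hVmem, hVsub⟩ : ∃ V ∈ B, ofClosed Ai hAicl hAine ∈ V ∧
      V ⊆ {A : Hyp Pt | infDist (Pt.u α none) A.1 < 1 / 2} := by
    apply hB.exists_subset_of_mem_open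
    · show infDist (Pt.u α none) Ai < 1 / 2
      rw [infDist_zero_of_mem (mem_insert _ _)]
      norm_num
    · exact isOpen_lt (continuous_infDist_hyp _) continuous_const
  obtain ⟨FV, εV, hεV, hFV⟩ := exists_fin_of_open (hB.isOpen hVB) hVmem
  -- choose `n`
  have hn : ∃ n : ℕ, rr n < εV ∧ ∀ z ∈ FV, ∀ k : ℕ, (z = .t (Sum.inl k) ∨ z = .x k) → k ≤ n := by
    obtain ⟨n₁, hn₁⟩ := exists_nat_one_div_lt hεV
    let idx : Pt → ℕ := fun a => match a with
      | .t (Sum.inl k) => k
      | .t (Sum.inr _) => 0
      | .x k => k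
      | .u _ _ => 0
    refine ⟨max n₁ (FV.sup idx), ?_, ?_⟩
    · exact (rr_anti (le_max_left _ _)).trans_lt hn₁
    · rintro z hz k (rfl | rfl)
      · exact (Finset.le_sup (f := idx) hz).trans (le_max_right _ _)
      · exact (Finset.le_sup (f := idx) hz).trans (le_max_right _ _)
  obtain ⟨n, hn1, hn2⟩ := hn
  -- adding a point of the piece
  have hfin : ∀ v : Pc, (insert (Pt.u α v) (xs n)).Finite := fun v => (xs_finite n).insert _
  have hne : ∀ v : Pc, (insert (Pt.u α v) (xs n)).Nonempty := fun v => insert_nonempty _ _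
  have hVin : ∀ v : Pc, (∀ p, v = some p → n ≤ p.1) →
      ofFin _ (hfin v) (hne v) ∈ V := by
    intro v hv
    apply hFV
    intro z hz
    show |infDist z (insert (Pt.u α v) (xs n)) - infDist z Ai| < εV
    have hvn : ed v none ≤ rr n := by
      cases v with
      | none => rw [ed_self]; exact (rr_pos n).le
      | some p =>
        have h1 : ed (some p) none = rr p.1 := by
          unfold ed
          rw [if_neg (by simp)]
          simp only [ht]
          exact max_eq_left (rr_pos _).le
        rw [h1]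
        exact rr_anti (hv p rfl)
    have h1 : infDist z Ai ≤ infDist z (insert (Pt.u α v) (xs n)) + rr n := by
      apply infDist_le_add (hne v)
      rintro b (rfl | ⟨m, hm, rfl⟩)
      · refine ⟨.u α none, mem_insert _ _, ?_⟩
        have := dist_triangle z (.u α v) (.u α none)
        rw [dist_uu, if_pos rfl] at this
        linarith
      · exact ⟨.x m, Or.inr ⟨m, rfl⟩, by linarith [rr_pos n]⟩
    have h2 : infDist z (insert (Pt.u α v) (xs n)) ≤ infDist z Ai + rr n := by
      apply infDist_le_add hAine
      rintro a (rfl | ⟨m, rfl⟩)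
      · refine ⟨.u α v, mem_insert _ _, ?_⟩
        have := dist_triangle z (.u α none) (.u α v)
        rw [dist_uu, if_pos rfl, ed_comm] at this
        linarith
      · by_cases hm : m ≤ n
        · exact ⟨.x m, Or.inr ⟨m, hm, rfl⟩, by linarith [rr_pos n]⟩
        · refine ⟨.x n, Or.inr ⟨n, le_rfl, rfl⟩, ?_⟩
          have hle : dist z (Pt.x n) ≤ dist z (Pt.x m) := by
            cases z with
            | t s =>
              rw [dist_tx, dist_tx]
              cases s with
              | inl k =>
                have hk := hn2 _ hz k (Or.inl rfl)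
                unfold dX
                rw [if_pos (show HitX (Sum.inl k) n from hk),
                  if_pos (show HitX (Sum.inl k) m by simp only [HitX]; omega)]
              | inr q =>
                unfold dX
                rw [if_neg (show ¬ HitX (Sum.inr q) n from id),
                  if_neg (show ¬ HitX (Sum.inr q) m from id)]
            | x k =>
              have hk := hn2 _ hz k (Or.inr rfl)
              rw [dist_xx, dist_xx, if_neg (show ¬ k = m by omega)]
              split_ifs <;> norm_num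
            | u β w => rw [dist_ux, dist_ux]
          linarith [rr_pos n]
    rw [abs_sub_lt_iff]
    constructor <;> linarith
  -- the centered family
  let C : Set (Set (Hyp Pt)) := insert V {U | ∃ (s : Ts) (h : ¬ HitX s n), U = W s n h}
  have hCB : C ⊆ B := by
    rintro U (rfl | ⟨s, h, rfl⟩)
    · exact hVB
    · exact hWB s n h
  have hcen : IsCentered C := by
    intro D hD hDfin
    have hchoice : ∀ U : Set (Hyp Pt), ∃ S : Finset Pt, (∀ z ∈ S, ∀ v, z ≠ Pt.u α v) ∧
        (U ∈ C → U ≠ V → ∃ ε' : ℝ, 0 < ε' ∧ ∀ A : Hyp Pt,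
          (∀ z ∈ S, |infDist z A.1 - infDist z (xs n)| < ε') → A ∈ U) := by
      intro U
      by_cases hU : U ∈ C ∧ U ≠ V
      · rcases hU.1 with h | ⟨s, h, rfl⟩
        · exact absurd h hU.2
        · refine ⟨F s n h, ?_, fun _ _ => ⟨ε s n h, hε s n h, hF s n h⟩⟩
          rintro z hz v rfl
          exact hα' s n h v hz
      · exact ⟨∅, by simp, fun h1 h2 => absurd ⟨h1, h2⟩ hU⟩
    choose S hS1 hS2 using hchoice
    -- choose `j`
    have hj : ∃ j : ℕ, ∀ U ∈ D, Pt.t (Sum.inr (n, j)) ∉ S U := by
      have hf : (⋃ U ∈ D, ((S U : Finset Pt) : Set Pt)).Finite :=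
        hDfin.biUnion fun U _ => (S U).finite_toSet
      have hinj : Function.Injective (fun j : ℕ => Pt.t (Sum.inr (n, j))) := by
        intro j j' h
        simpa using h
      obtain ⟨j, hj⟩ := (infinite_univ (α := ℕ)).exists_notMem_finite (hf.preimage hinj.injOn)
      refine ⟨j, fun U hU hmem => hj.2 ?_⟩
      show Pt.t (Sum.inr (n, j)) ∈ ⋃ U ∈ D, ((S U : Finset Pt) : Set Pt)
      rw [mem_iUnion₂]
      exact ⟨U, hU, hmem⟩
    obtain ⟨j, hj⟩ := hj
    refine ⟨ofFin _ (hfin (some (n, j))) (hne (some (n, j))), ?_⟩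
    intro U hU
    by_cases hUV : U = V
    · rw [hUV]
      apply hVin
      intro p hp
      simp only [Option.some.injEq] at hp
      rw [← hp]
    · obtain ⟨ε', he', hin⟩ := hS2 U (hD hU) hUV
      apply hin
      intro z hz
      show |infDist z (insert (Pt.u α (some (n, j))) (xs n)) - infDist z (xs n)| < ε'
      have h1 : infDist z (insert (Pt.u α (some (n, j))) (xs n)) ≤ infDist z (xs n) :=
        infDist_le_infDist_of_subset (subset_insert _ _) (xs_nonempty n)
      have h2 : infDist z (xs n) ≤ infDist z (insert (Pt.u α (some (n, j))) (xs n)) + 0 := by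
        apply infDist_le_add (hne _)
        rintro b (rfl | ⟨m, hm, rfl⟩)
        · refine ⟨.x n, ⟨n, le_rfl, rfl⟩, ?_⟩
          rw [add_zero]
          cases z with
          | t s =>
            rw [dist_tx, dist_tu]
            cases s with
            | inl k =>
              unfold dX dU
              by_cases hk : k ≤ n
              · rw [if_pos (show HitX (Sum.inl k) n from hk),
                  if_pos (show Hit (Sum.inl k) (some (n, j)) from hk)]
              · rw [if_neg (show ¬ HitX (Sum.inl k) n from hk),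
                  if_neg (show ¬ Hit (Sum.inl k) (some (n, j)) from hk)]
            | inr q =>
              unfold dX dU
              rw [if_neg (show ¬ HitX (Sum.inr q) n from id), if_neg]
              intro h
              have h' : (some (n, j) : Pc) = some q := h
              rw [Option.some.injEq] at h'
              subst h'
              exact hj U hU hz
          | x k =>
            rw [dist_xx, dist_xu]
            split_ifs <;> norm_num
          | u β w =>
            rw [dist_ux, dist_uu]
            by_cases hβ : β = α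
            · subst hβ
              exact absurd rfl (hS1 U _ hz w)
            · rw [if_neg hβ]
        · exact ⟨.x m, ⟨m, hm, rfl⟩, by linarith⟩
      rw [abs_sub_lt_iff]
      constructor <;> linarith
  obtain ⟨A, hA⟩ := hlim C hCB hcen
  rw [mem_iInter₂] at hA
  have hAV : infDist (Pt.u α none) A.1 ≤ 1 / 2 := by
    have h1 : V ⊆ {A : Hyp Pt | infDist (Pt.u α none) A.1 ≤ 1 / 2} := fun A hA =>
      le_of_lt (show infDist (Pt.u α none) A.1 < 1 / 2 from hVsub hA)
    have h2 : IsClosed {A : Hyp Pt | infDist (Pt.u α none) A.1 ≤ 1 / 2} :=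
      isClosed_le (continuous_infDist_hyp _) continuous_const
    exact closure_minimal h1 h2 (hA V (mem_insert _ _))
  have hAV' : infDist (Pt.u α none) A.1 < 1 := by linarith
  obtain ⟨b, hb, hbd⟩ := (infDist_lt_iff A.2.2).1 hAV'
  cases b with
  | t s => rw [dist_ut] at hbd; linarith [dU_ge s none]
  | x m => rw [dist_ux] at hbd; norm_num at hbd
  | u β v =>
    rw [dist_uu] at hbd
    by_cases hβ : α = β
    · subst hβ
      have hfinal : ∀ s : Ts, ¬ HitX s n → ¬ Hit s v := by
        intro s hs hhit
        have h1 := closure_gt s (hWgt s n hs) A (hA _ (Or.inr ⟨s, hs, rfl⟩)) _ hb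
        rw [dist_tu] at h1
        unfold dU at h1
        rw [if_pos hhit] at h1
        exact lt_irrefl _ h1
      cases v with
      | none =>
        refine hfinal (Sum.inl (n + 1)) ?_ trivial
        simp only [HitX]
        omega
      | some p => exact hfinal (Sum.inr p) id rfl
    · rw [if_neg hβ] at hbd
      norm_num at hbd

/-! ## The result -/

/-- **Full answer to Q1.**
(a) if `X` is pseudocomplete, so is its Wijsman hyperspace;
(b) if `X` is subcompact, so is its Wijsman hyperspace;
(c) there is a base-compact metric space whose Wijsman hyperspace is not base-compact.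
(The first clause records the well-known fact that Wijsman hyperspaces are `T₃`, so that it does
not matter whether `regular` includes the `T₁` axiom.) -/
theorem result :
    (∀ (X : Type u) [MetricSpace X], T3Space (Hyp X)) ∧
    (∀ (X : Type u) [MetricSpace X], Pseudocomplete X → Pseudocomplete (Hyp X)) ∧
    (∀ (X : Type u) [MetricSpace X], Subcompact X → Subcompact (Hyp X)) ∧
    (∃ (X : Type) (_ : MetricSpace X), BaseCompact X ∧ ¬ BaseCompact (Hyp X)) :=
  ⟨fun _ _ => inferInstance, fun X _ h => pseudocomplete_hyp X h,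
    fun X _ h => subcompact_hyp X h,
    ⟨Pt, inferInstance, baseCompact_Pt, not_baseCompact_hyp_Pt⟩⟩

end Pool.Agent.Results.MP_091b66_gt.WijsmanCompleteness
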